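import Mathlib

/-!
# Stochastic dominance of the union of ranges of independent stationary chains fails
-/

open Finset

namespace Pool.Agent.Results.MP_55034c_pr.UnionRangeDominanceFails

/-- `P` is the transition matrix of a chain that is reversible with respect to the probability
`π`, irreducible and aperiodic. -/
structure ReversibleChain {V : Type} [Fintype V] [DecidableEq V] (P : Matrix V V ℝ)
    (π : V → ℝ) : Prop where
  nonneg : ∀ u v, 0 ≤ P u v
  row_sum : ∀ u, ∑ v, P u v = 1
  pi_pos : ∀ u, 0 < π u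
  pi_sum : ∑ u, π u = 1
  reversible : ∀ u v, π u * P u v = π v * P v u
  irred : ∀ u v, ∃ t : ℕ, 0 < (P ^ t) u v
  aper : ∀ u, ∀ d : ℕ, (∀ t : ℕ, 0 < t → 0 < (P ^ t) u u → d ∣ t) → d = 1

/-- Probability of the trajectory `w₀, …, w_t` for the chain started from `π`. -/
noncomputable def pathProb {V : Type} (P : Matrix V V ℝ) (π : V → ℝ) {t : ℕ}
    (w : Fin (t + 1) → V) : ℝ :=
  π (w 0) * ∏ s : Fin t, P (w s.castSucc) (w s.succ)

/-- `P_π(|R(t)| ≥ y)`. -/
noncomputable def singleTail {V : Type} [Fintype V] [DecidableEq V] (P : Matrix V V ℝ)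
    (π : V → ℝ) (t y : ℕ) : ℝ :=
  ∑ w : Fin (t + 1) → V, if y ≤ (Finset.univ.image w).card then pathProb P π w else 0

/-- `P_{π^k}(|⋃_i R_i(t_i)| ≥ y)` for `k` independent chains run for `t_1, …, t_k` steps. -/
noncomputable def unionTail {V : Type} [Fintype V] [DecidableEq V] (P : Matrix V V ℝ)
    (π : V → ℝ) {k : ℕ} (t : Fin k → ℕ) (y : ℕ) : ℝ :=
  ∑ w : (i : Fin k) → (Fin (t i + 1) → V),
    if y ≤ (Finset.univ.biUnion fun i => Finset.univ.image (w i)).card then
      ∏ i, pathProb P π (w i) else 0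

section general

variable {V : Type} [Fintype V] [DecidableEq V] (P : Matrix V V ℝ) (π : V → ℝ)

lemma sum_pathProb_succ (t : ℕ) (f : V → ℝ) :
    ∑ w : Fin (t + 1 + 1) → V, pathProb P f w
      = ∑ w : Fin (t + 1) → V, pathProb P (fun v => ∑ a, f a * P a v) w := by
  unfold pathProb
  rw [← (Fin.consEquiv (fun _ : Fin (t + 2) => V)).sum_comp, Fintype.sum_prod_type,
    Finset.sum_comm]
  refine Finset.sum_congr rfl fun w _ => ?_
  rw [Finset.sum_mul]
  refine Finset.sum_congr rfl fun a _ => ?_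
  have e0 : ((Fin.consEquiv (fun _ : Fin (t + 2) => V)) (a, w)) 0 = a := rfl
  have es : ∀ s : Fin (t + 1),
      ((Fin.consEquiv (fun _ : Fin (t + 2) => V)) (a, w)) s.succ = w s := fun s => rfl
  have ec : ∀ s : Fin t,
      ((Fin.consEquiv (fun _ : Fin (t + 2) => V)) (a, w)) (s.succ.castSucc) = w s.castSucc :=
    fun s => rfl
  have ec0 : ((Fin.consEquiv (fun _ : Fin (t + 2) => V)) (a, w)) ((0 : Fin (t + 1)).castSucc)
      = a := rfl
  rw [Fin.prod_univ_succ]
  simp only [e0, es, ec, ec0]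
  ring

lemma sum_pathProb {P : Matrix V V ℝ} {π : V → ℝ} (h : ReversibleChain P π) (t : ℕ) :
    ∑ w : Fin (t + 1) → V, pathProb P π w = 1 := by
  have hst : (fun v => ∑ a, π a * P a v) = π := by
    funext v
    have : ∀ a, π a * P a v = π v * P v a := fun a => h.reversible a v
    simp only [this]
    rw [← Finset.mul_sum, h.row_sum, mul_one]
  induction t with
  | zero =>
    unfold pathProb
    rw [← (Equiv.funUnique (Fin 1) V).symm.sum_comp]
    simp only [Finset.univ_eq_empty, Finset.prod_empty, mul_one]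
    exact h.pi_sum
  | succ t ih => rw [sum_pathProb_succ, hst, ih]

lemma pathProb_nonneg {P : Matrix V V ℝ} {π : V → ℝ} (h : ReversibleChain P π) {t : ℕ}
    (w : Fin (t + 1) → V) : 0 ≤ pathProb P π w :=
  mul_nonneg (h.pi_pos _).le (Finset.prod_nonneg fun _ _ => h.nonneg _ _)

end general

/-- weights: the complete graph on 7 vertices, the edge `{0,1}` has weight `H`, all other edges
have weight 1 -/
noncomputable def cc (H : ℝ) (x y : Fin 7) : ℝ :=
  if x = y then 0 else if (x : ℕ) < 2 ∧ (y : ℕ) < 2 then H else 1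

/-- degrees -/
noncomputable def dg (H : ℝ) (x : Fin 7) : ℝ := if (x : ℕ) < 2 then H + 5 else 6

noncomputable def PP (H : ℝ) : Matrix (Fin 7) (Fin 7) ℝ := fun x y => cc H x y / dg H x

noncomputable def pp (H : ℝ) (x : Fin 7) : ℝ := dg H x / (2 * H + 40)

lemma cc_symm (H : ℝ) (x y : Fin 7) : cc H x y = cc H y x := by
  unfold cc
  by_cases h : x = y
  · simp [h]
  · rw [if_neg h, if_neg (Ne.symm h)]
    congr 1
    apply propext
    exact and_comm

lemma dg_sum (H : ℝ) (x : Fin 7) : ∑ y, cc H x y = dg H x := by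
  fin_cases x <;> simp [cc, dg, Fin.sum_univ_succ] <;> ring

lemma dg_pos (H : ℝ) (hH : 0 < H) (x : Fin 7) : 0 < dg H x := by
  unfold dg; split_ifs <;> positivity

lemma cc_pos (H : ℝ) (hH : 0 < H) (x y : Fin 7) (h : x ≠ y) : 0 < cc H x y := by
  unfold cc; rw [if_neg h]; split_ifs <;> positivity

lemma PP_pos (H : ℝ) (hH : 0 < H) (x y : Fin 7) (h : x ≠ y) : 0 < PP H x y :=
  div_pos (cc_pos H hH x y h) (dg_pos H hH x)

lemma PP_nonneg (H : ℝ) (hH : 0 < H) (x y : Fin 7) : 0 ≤ PP H x y := by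
  by_cases h : x = y
  · subst h; simp [PP, cc]
  · exact (PP_pos H hH x y h).le

lemma exists_other (x y : Fin 7) : ∃ z, z ≠ x ∧ z ≠ y := by
  have : ∀ x y : Fin 7, ∃ z : Fin 7, z ≠ x ∧ z ≠ y := by decide
  exact this x y

lemma PP2_pos (H : ℝ) (hH : 0 < H) (x y : Fin 7) : 0 < (PP H ^ 2) x y := by
  rw [pow_two, Matrix.mul_apply]
  obtain ⟨z, hz1, hz2⟩ := exists_other x y
  refine Finset.sum_pos' (fun i _ => mul_nonneg (PP_nonneg H hH _ _) (PP_nonneg H hH _ _))
    ⟨z, Finset.mem_univ _, mul_pos (PP_pos H hH _ _ (Ne.symm hz1)) (PP_pos H hH _ _ hz2)⟩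

lemma PP3_pos (H : ℝ) (hH : 0 < H) (x y : Fin 7) : 0 < (PP H ^ 3) x y := by
  rw [pow_succ, Matrix.mul_apply]
  obtain ⟨z, hz1, hz2⟩ := exists_other x y
  refine Finset.sum_pos' (fun i _ => mul_nonneg (PP2_pos H hH _ _).le (PP_nonneg H hH _ _))
    ⟨z, Finset.mem_univ _, mul_pos (PP2_pos H hH _ _) (PP_pos H hH _ _ hz2)⟩

lemma chain (H : ℝ) (hH : 0 < H) : ReversibleChain (PP H) (pp H) := by
  have hT : (0 : ℝ) < 2 * H + 40 := by positivity
  refine ⟨PP_nonneg H hH, fun u => ?_, fun u => div_pos (dg_pos H hH u) hT, ?_, fun u v => ?_,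
    fun u v => ⟨2, PP2_pos H hH u v⟩, fun u d hd => ?_⟩
  · unfold PP
    rw [← Finset.sum_div, dg_sum]
    exact div_self (dg_pos H hH u).ne'
  · unfold pp
    rw [← Finset.sum_div]
    have : ∑ i, dg H i = 2 * H + 40 := by
      simp [dg, Fin.sum_univ_succ]; ring
    rw [this]
    exact div_self hT.ne'
  · unfold pp PP
    have hu := (dg_pos H hH u).ne'
    have hv := (dg_pos H hH v).ne'
    rw [cc_symm H u v]
    field_simp
  · have h2 := hd 2 (by norm_num) (PP2_pos H hH u u)
    have h3 := hd 3 (by norm_num) (PP3_pos H hH u u)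
    have h1 : d ∣ 1 := by
      have := Nat.dvd_sub h3 h2
      simpa using this
    exact Nat.dvd_one.mp h1

/-- lower bound for the single chain -/
lemma single_ge (H : ℝ) (hH : 40 ≤ H) : 1 / (7776 * H) ≤ singleTail (PP H) (pp H) 6 7 := by
  have hH0 : 0 < H := by linarith
  have hch := chain H hH0
  have hterm : ∀ w : Fin (6 + 1) → Fin 7, 0 ≤
      (if 7 ≤ (Finset.univ.image w).card then pathProb (PP H) (pp H) w else 0) := by
    intro w
    split_ifs
    · exact pathProb_nonneg hch w
    · exact le_rfl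
  have hone := Finset.single_le_sum (fun w _ => hterm w)
    (Finset.mem_univ (fun i : Fin (6 + 1) => (Fin.rev i : Fin 7)))
  refine le_trans ?_ hone
  have hcard : 7 ≤ (Finset.univ.image (fun i : Fin (6 + 1) => (Fin.rev i : Fin 7))).card := by
    decide
  rw [if_pos hcard]
  have e : pathProb (PP H) (pp H) (fun i : Fin (6 + 1) => (Fin.rev i : Fin 7))
      = (6 / (2 * H + 40)) * ((1 / 6) * ((1 / 6) * ((1 / 6) * ((1 / 6) * ((1 / 6) *
        (H / (H + 5))))))) := by
    unfold pathProb
    simp only [Fin.prod_univ_succ, Fin.prod_univ_zero]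
    simp [PP, pp, cc, dg, Fin.rev, Fin.ext_iff]
  rw [e, div_le_iff₀ (by positivity)]
  have h1 : (6 / (2 * H + 40)) * ((1 / 6) * ((1 / 6) * ((1 / 6) * ((1 / 6) * ((1 / 6) *
        (H / (H + 5))))))) * (7776 * H) = 6 * H ^ 2 / ((2 * H + 40) * (H + 5)) := by
    field_simp
    ring
  rw [h1, le_div_iff₀ (by positivity)]
  nlinarith

/-- probability to leave `{0,1}` within 3 steps -/
noncomputable def qq (H : ℝ) : ℝ :=
  ∑ w : Fin (3 + 1) → Fin 7, if ∃ s, ¬ ((w s : ℕ) < 2) then pathProb (PP H) (pp H) w else 0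

lemma qq_nonneg (H : ℝ) (hH : 0 < H) : 0 ≤ qq H := by
  refine Finset.sum_nonneg fun w _ => ?_
  split_ifs
  · exact pathProb_nonneg (chain H hH) w
  · exact le_rfl

lemma qq_le (H : ℝ) (hH : 40 ≤ H) : qq H ≤ 30 / H := by
  have hH0 : 0 < H := by linarith
  have hch := chain H hH0
  have htot := sum_pathProb hch 3
  have hsplit : qq H + ∑ w : Fin (3 + 1) → Fin 7,
      (if ∀ s, (w s : ℕ) < 2 then pathProb (PP H) (pp H) w else 0) = 1 := by
    rw [← htot]
    unfold qq
    rw [← Finset.sum_add_distrib]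
    refine Finset.sum_congr rfl fun w _ => ?_
    by_cases h : ∀ s, (w s : ℕ) < 2
    · have h' : ¬ ∃ s, ¬ ((w s : ℕ) < 2) := by
        rintro ⟨s, hs⟩; exact hs (h s)
      rw [if_neg h', if_pos h, zero_add]
    · have h' : ∃ s, ¬ ((w s : ℕ) < 2) := not_forall.mp h
      rw [if_pos h', if_neg h, add_zero]
  let w1 : Fin (3 + 1) → Fin 7 := ![0, 1, 0, 1]
  let w2 : Fin (3 + 1) → Fin 7 := ![1, 0, 1, 0]
  have hne : w1 ≠ w2 := by
    intro h
    have := congrFun h 0
    simp [w1, w2] at this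
  have hb1 : ∀ s, (w1 s : ℕ) < 2 := by decide
  have hb2 : ∀ s, (w2 s : ℕ) < 2 := by decide
  have hp1 : pathProb (PP H) (pp H) w1
      = (H + 5) / (2 * H + 40) * ((H / (H + 5)) * ((H / (H + 5)) * (H / (H + 5)))) := by
    unfold pathProb
    simp only [Fin.prod_univ_succ, Fin.prod_univ_zero]
    simp [PP, pp, cc, dg, w1]
  have hp2 : pathProb (PP H) (pp H) w2
      = (H + 5) / (2 * H + 40) * ((H / (H + 5)) * ((H / (H + 5)) * (H / (H + 5)))) := by
    unfold pathProb
    simp only [Fin.prod_univ_succ, Fin.prod_univ_zero]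
    simp [PP, pp, cc, dg, w2]
  have hge : pathProb (PP H) (pp H) w1 + pathProb (PP H) (pp H) w2
      ≤ ∑ w : Fin (3 + 1) → Fin 7,
      (if ∀ s, (w s : ℕ) < 2 then pathProb (PP H) (pp H) w else 0) := by
    have h1 : ∑ w ∈ ({w1, w2} : Finset (Fin (3 + 1) → Fin 7)),
        (if ∀ s, (w s : ℕ) < 2 then pathProb (PP H) (pp H) w else 0)
        = pathProb (PP H) (pp H) w1 + pathProb (PP H) (pp H) w2 := by
      rw [Finset.sum_pair hne, if_pos hb1, if_pos hb2]
    rw [← h1]
    refine Finset.sum_le_sum_of_subset_of_nonneg (Finset.subset_univ _) fun w _ _ => ?_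
    split_ifs
    · exact pathProb_nonneg hch w
    · exact le_rfl
  rw [hp1, hp2] at hge
  have hnum : 1 - 30 / H ≤ (H + 5) / (2 * H + 40) * ((H / (H + 5)) * ((H / (H + 5)) *
      (H / (H + 5)))) + (H + 5) / (2 * H + 40) * ((H / (H + 5)) * ((H / (H + 5)) *
      (H / (H + 5)))) := by
    have e : (H + 5) / (2 * H + 40) * ((H / (H + 5)) * ((H / (H + 5)) *
      (H / (H + 5)))) + (H + 5) / (2 * H + 40) * ((H / (H + 5)) * ((H / (H + 5)) *
      (H / (H + 5)))) = H ^ 3 / ((H + 20) * (H + 5) ^ 2) := by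
      field_simp
      ring
    have e2 : 1 - 30 / H = (H - 30) / H := by field_simp
    rw [e, e2, div_le_div_iff₀ hH0 (by positivity)]
    nlinarith [sq_nonneg H, mul_pos hH0 hH0]
  linarith

lemma union_le (H : ℝ) (hH : 0 < H) :
    unionTail (PP H) (pp H) (fun _ : Fin 2 => 3) 7 ≤ qq H ^ 2 := by
  have hch := chain H hH
  have hprod : qq H ^ 2 = ∏ i : Fin 2, ∑ w : Fin (3 + 1) → Fin 7,
      (if ∃ s, ¬ ((w s : ℕ) < 2) then pathProb (PP H) (pp H) w else 0) := by
    rw [Finset.prod_const, Finset.card_univ, Fintype.card_fin]; rfl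
  rw [hprod, Finset.prod_univ_sum, Fintype.piFinset_univ]
  unfold unionTail
  refine Finset.sum_le_sum fun w _ => ?_
  by_cases hc : 7 ≤ (Finset.univ.biUnion fun i : Fin 2 => Finset.univ.image (w i)).card
  · rw [if_pos hc]
    have hleave : ∀ i : Fin 2, ∃ s, ¬ ((w i s : ℕ) < 2) := by
      intro i
      by_contra hcon
      push Not at hcon
      have hsub : (Finset.univ.biUnion fun i : Fin 2 => Finset.univ.image (w i))
          ⊆ Finset.univ.image (w (1 - i)) ∪ ({0, 1} : Finset (Fin 7)) := by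
        intro x hx
        rw [Finset.mem_biUnion] at hx
        obtain ⟨j, -, hj⟩ := hx
        by_cases hji : j = i
        · subst hji
          rw [Finset.mem_image] at hj
          obtain ⟨s, -, hs⟩ := hj
          have := hcon s
          rw [hs] at this
          rw [Finset.mem_union]
          right
          rw [Finset.mem_insert, Finset.mem_singleton, Fin.ext_iff, Fin.ext_iff]
          have h0 : ((0 : Fin 7) : ℕ) = 0 := rfl
          have h1 : ((1 : Fin 7) : ℕ) = 1 := rfl
          rw [h0, h1]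
          omega
        · have : j = 1 - i := by
            revert hji
            fin_cases i <;> fin_cases j <;> simp
          rw [this] at hj
          exact Finset.mem_union_left _ hj
      have h1 := Finset.card_le_card hsub
      have h2 := Finset.card_union_le (Finset.univ.image (w (1 - i))) ({0, 1} : Finset (Fin 7))
      have h3 : (Finset.univ.image (w (1 - i))).card ≤ 4 := by
        refine Finset.card_image_le.trans ?_
        simp
      have h4 : ({0, 1} : Finset (Fin 7)).card ≤ 2 := Finset.card_le_two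
      omega
    apply le_of_eq
    refine Finset.prod_congr rfl fun i _ => ?_
    rw [if_pos (hleave i)]
  · rw [if_neg hc]
    refine Finset.prod_nonneg fun i _ => ?_
    split_ifs
    · exact pathProb_nonneg hch _
    · exact le_rfl

/-- The claimed dominance fails, by an arbitrarily large factor: for every `δ > 0` there is a
reversible irreducible aperiodic chain on 7 states with all `P x y > 0` for `x ≠ y` and
`P x x = 0` (random walk on a weighted complete graph), for which with `k = 2`,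
`t_1 = t_2 = 3`, `y = 7`, the left-hand probability is less than `δ` times the right-hand one. -/
theorem result : ∀ δ : ℝ, 0 < δ → ∃ (P : Matrix (Fin 7) (Fin 7) ℝ) (π : Fin 7 → ℝ),
    ReversibleChain P π ∧ (∀ x, P x x = 0) ∧
      unionTail P π (fun _ : Fin 2 => 3) 7 < δ * singleTail P π (∑ _i : Fin 2, 3) 7 := by
  intro δ hδ
  set H : ℝ := max 40 (7000000 / δ) with hHdef
  have hH40 : 40 ≤ H := le_max_left _ _
  have hHδ : 7000000 / δ ≤ H := le_max_right _ _
  have hH0 : 0 < H := by linarith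
  refine ⟨PP H, pp H, chain H hH0, fun x => by simp [PP, cc], ?_⟩
  have e6 : (∑ _i : Fin 2, 3) = 6 := by simp
  rw [e6]
  have h1 := single_ge H hH40
  have h2 := union_le H hH0
  have h3 := qq_le H hH40
  have h4 := qq_nonneg H hH0
  have h5 : qq H ^ 2 ≤ (30 / H) ^ 2 := pow_le_pow_left₀ h4 h3 2
  have h6 : δ * (1 / (7776 * H)) ≤ δ * singleTail (PP H) (pp H) 6 7 :=
    mul_le_mul_of_nonneg_left h1 hδ.le
  have h7 : (30 / H) ^ 2 < δ * (1 / (7776 * H)) := by
    rw [div_pow, mul_one_div, div_lt_div_iff₀ (by positivity) (by positivity)]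
    have h8 : 7000000 ≤ H * δ := (div_le_iff₀ hδ).mp hHδ
    have h9 : 30 ^ 2 * (7776 * H) < 7000000 * H := by linarith
    have h10 : 7000000 * H ≤ H * δ * H := mul_le_mul_of_nonneg_right h8 hH0.le
    have h11 : H * δ * H = δ * H ^ 2 := by ring
    linarith
  linarith

end Pool.Agent.Results.MP_55034c_pr.UnionRangeDominanceFails
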